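import Pool.Agent.L7h83.HO.Stm

/-!
# Project HO: nonsingularity forces the degree eight
-/

set_option autoImplicit false

open MvPolynomial Topology Filter

namespace Pool.Agent.L7h83.HO

open Pool.Agent.L7h17.OC

theorem hasDerivAt_eval (F : MvPolynomial (Fin 3) ℝ) (v w : Fin 3 → ℝ) :
    HasDerivAt (fun s : ℝ => eval (fun j => v j + s * w j) F)
      (∑ i, w i * eval v (pderiv i F)) 0 := by
  induction F using MvPolynomial.induction_on with
  | C a => simpa using hasDerivAt_const (0 : ℝ) a
  | add p q hp hq =>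
    have h := hp.add hq
    have e : (fun s : ℝ => eval (fun j => v j + s * w j) (p + q)) =
        (fun s : ℝ => eval (fun j => v j + s * w j) p) +
          fun s : ℝ => eval (fun j => v j + s * w j) q := by
      funext s
      simp
    rw [e]
    refine h.congr_deriv ?_
    rw [← Finset.sum_add_distrib]
    refine Finset.sum_congr rfl fun i _ => ?_
    simp
    ring
  | mul_X p n hp =>
    have hl : HasDerivAt (fun s : ℝ => v n + s * w n) (w n) 0 := by
      simpa using ((hasDerivAt_id (0 : ℝ)).mul_const (w n)).const_add (v n)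
    have h := hp.mul hl
    have e : (fun s : ℝ => eval (fun j => v j + s * w j) (p * X n)) =
        (fun s : ℝ => eval (fun j => v j + s * w j) p) *
          fun s : ℝ => v n + s * w n := by
      funext s
      simp
    rw [e]
    refine h.congr_deriv ?_
    have hv : (fun j => v j + 0 * w j) = v := by
      funext j
      simp
    rw [hv]
    symm
    have e2 : ∀ i : Fin 3, w i * eval v (pderiv i (p * X n)) =
        w i * eval v (pderiv i p) * v n + (if i = n then eval v p * w n else 0) := by
      intro i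
      by_cases hi : i = n
      · subst hi
        simp [Derivation.leibniz, pderiv_X_self]
        ring
      · simp [Derivation.leibniz, pderiv_X_of_ne (Ne.symm hi), hi]
        ring
    rw [Finset.sum_congr rfl fun i _ => e2 i, Finset.sum_add_distrib, ← Finset.sum_mul]
    simp

/-- if the form `F` is harmonic of degree at most eight and nonsingular, the degree is eight -/
theorem deg (c : ℕ → ℂ) (F : MvPolynomial (Fin 3) ℝ)
    (h : ∀ x y t : ℝ, eval ![x, y, t] F =
      (∑ j ∈ Finset.range 9, c j * ((x : ℂ) + y * Complex.I) ^ j * (t : ℂ) ^ (8 - j)).re)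
    (hN : Nonsing F) : c 8 ≠ 0 := by
  intro h8
  obtain ⟨u, hu, hur⟩ : ∃ u : ℂ, ‖u‖ = 1 ∧ (c 7 * u ^ 7).re = 0 := by
    by_cases h7 : c 7 = 0
    · exact ⟨1, by simp, by simp [h7]⟩
    · obtain ⟨u, hu⟩ := IsAlgClosed.exists_pow_nat_eq
        (Complex.I * (starRingEnd ℂ) (c 7) / (‖c 7‖ : ℂ)) (n := 7) (by norm_num)
      have hc : (‖c 7‖ : ℂ) ≠ 0 := by
        simpa using h7
      refine ⟨u, ?_, ?_⟩
      · have hn := congrArg norm hu
        rw [norm_pow, norm_div, norm_mul, Complex.norm_I, Complex.norm_conj, one_mul,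
          Complex.norm_real, norm_norm, div_self (norm_ne_zero_iff.2 h7)] at hn
        exact (pow_eq_one_iff_of_nonneg (norm_nonneg u) (by norm_num)).1 hn
      · rw [hu]
        have e : c 7 * (Complex.I * (starRingEnd ℂ) (c 7) / (‖c 7‖ : ℂ)) =
            Complex.I * (‖c 7‖ : ℂ) := by
          have h2 : c 7 * (starRingEnd ℂ) (c 7) = (‖c 7‖ : ℂ) ^ 2 := Complex.mul_conj' (c 7)
          field_simp
          linear_combination h2
        rw [e]
        simp
  set v : Fin 3 → ℝ := ![u.re, u.im, 0] with hv
  have hval : ∀ x y : ℝ, eval ![x, y, 0] F = 0 := by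
    intro x y
    rw [h, Finset.sum_range_succ, Finset.sum_eq_zero]
    · simp [h8]
    · intro j hj
      have hj' : 8 - j ≠ 0 := by
        have := Finset.mem_range.1 hj
        omega
      simp [hj']
  have hd0 : eval v (pderiv 0 F) = 0 := by
    have hd := hasDerivAt_eval F v ![1, 0, 0]
    have e : (fun s : ℝ => eval (fun j => v j + s * (![1, 0, 0] : Fin 3 → ℝ) j) F) =
        fun _ => 0 := by
      funext s
      have e1 : (fun j => v j + s * (![1, 0, 0] : Fin 3 → ℝ) j) = ![u.re + s, u.im, 0] := by
        funext j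
        fin_cases j <;> simp [hv]
      rw [e1, hval]
    rw [e] at hd
    have := hd.unique (hasDerivAt_const (0 : ℝ) (0 : ℝ))
    simpa [Fin.sum_univ_three] using this
  have hd1 : eval v (pderiv 1 F) = 0 := by
    have hd := hasDerivAt_eval F v ![0, 1, 0]
    have e : (fun s : ℝ => eval (fun j => v j + s * (![0, 1, 0] : Fin 3 → ℝ) j) F) =
        fun _ => 0 := by
      funext s
      have e1 : (fun j => v j + s * (![0, 1, 0] : Fin 3 → ℝ) j) = ![u.re, u.im + s, 0] := by
        funext j
        fin_cases j <;> simp [hv]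
      rw [e1, hval]
    rw [e] at hd
    have := hd.unique (hasDerivAt_const (0 : ℝ) (0 : ℝ))
    simpa [Fin.sum_univ_three] using this
  have hd2 : eval v (pderiv 2 F) = 0 := by
    have hd := hasDerivAt_eval F v ![0, 0, 1]
    have e : (fun s : ℝ => eval (fun j => v j + s * (![0, 0, 1] : Fin 3 → ℝ) j) F) =
        fun s => ∑ j ∈ Finset.range 9, (c j * u ^ j).re * s ^ (8 - j) := by
      funext s
      have e1 : (fun j => v j + s * (![0, 0, 1] : Fin 3 → ℝ) j) = ![u.re, u.im, s] := by
        funext j
        fin_cases j <;> simp [hv]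
      rw [e1, h, Complex.re_add_im, Complex.re_sum]
      refine Finset.sum_congr rfl fun j _ => ?_
      rw [← Complex.ofReal_pow, Complex.re_mul_ofReal]
    rw [e] at hd
    have hs : HasDerivAt (fun s : ℝ => ∑ j ∈ Finset.range 9, (c j * u ^ j).re * s ^ (8 - j))
        (∑ j ∈ Finset.range 9, (c j * u ^ j).re * (((8 - j : ℕ) : ℝ) * 0 ^ (8 - j - 1))) 0 := by
      have := HasDerivAt.sum (u := Finset.range 9)
        (A := fun j (s : ℝ) => (c j * u ^ j).re * s ^ (8 - j))
        (A' := fun j => (c j * u ^ j).re * (((8 - j : ℕ) : ℝ) * 0 ^ (8 - j - 1))) (x := (0 : ℝ))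
        (fun j _ => (hasDerivAt_pow (8 - j) (0 : ℝ)).const_mul _)
      have e3 : (fun s : ℝ => ∑ j ∈ Finset.range 9, (c j * u ^ j).re * s ^ (8 - j)) =
          ∑ j ∈ Finset.range 9, fun s : ℝ => (c j * u ^ j).re * s ^ (8 - j) := by
        funext s
        simp
      rw [e3]
      exact this
    have := hd.unique hs
    rw [Fin.sum_univ_three] at this
    simp [Finset.sum_range_succ] at this
    rw [this]
    exact_mod_cast hur
  refine hN (fun i => (v i : ℂ)) (fun h0 => ?_) ⟨?_, fun i => ?_⟩
  · have h1 := congrFun h0 0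
    have h2 := congrFun h0 1
    simp [hv] at h1 h2
    have : u = 0 := Complex.ext h1 h2
    rw [this] at hu
    simp at hu
  · have := MvPolynomial.aeval_algebraMap_apply ℂ v F
    have e : (fun i => (v i : ℂ)) = (algebraMap ℝ ℂ) ∘ v := rfl
    rw [e, this, MvPolynomial.aeval_eq_eval]
    show algebraMap ℝ ℂ (eval v F) = 0
    rw [hv, hval]
    simp
  · have := MvPolynomial.aeval_algebraMap_apply ℂ v (pderiv i F)
    have e : (fun i => (v i : ℂ)) = (algebraMap ℝ ℂ) ∘ v := rfl
    rw [e, this, MvPolynomial.aeval_eq_eval]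
    show algebraMap ℝ ℂ (eval v (pderiv i F)) = 0
    fin_cases i
    · show algebraMap ℝ ℂ (eval v (pderiv 0 F)) = 0
      rw [hd0]; simp
    · show algebraMap ℝ ℂ (eval v (pderiv 1 F)) = 0
      rw [hd1]; simp
    · show algebraMap ℝ ℂ (eval v (pderiv 2 F)) = 0
      rw [hd2]; simp

end Pool.Agent.L7h83.HO
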