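import Pool.Agent.L7h83.HO.Key

/-!
# Project HO: at most four pieces
-/

set_option autoImplicit false

open MvPolynomial Topology Filter

namespace Pool.Agent.L7h83.HO

open Pool.Agent.L7h17.OC

theorem fin (hKEY : KEY) (hCNT : CNT) (p : Polynomial ℂ) (F : MvPolynomial (Fin 3) ℝ)
    (hH : Harm p F) (hN : Nonsing F) (k : ℕ) (hk : SplitsInto k F) : k ≤ 4 := by
  obtain ⟨C, hne, hdis, hun, hcone, hcl⟩ := hk
  have key := hKEY p F hH hN k C hne hdis hun hcone hcl
  have ha : p.coeff 8 ≠ 0 := by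
    have h8 := hH.1
    rw [← h8]
    refine Polynomial.leadingCoeff_ne_zero.2 ?_
    rintro rfl
    simp at h8
  have hinf : ∀ w : ℂ, eval ![w.re, w.im, 0] F = (p.coeff 8 * w ^ 8).re := by
    intro w
    rw [hH.2, Complex.re_add_im, Finset.sum_range_succ, Finset.sum_eq_zero]
    · simp
    · intro j hj
      have hj' : 8 - j ≠ 0 := by
        have := Finset.mem_range.1 hj
        omega
      simp [hj']
  refine hCNT (p.coeff 8) ha k (fun i => {w | ‖w‖ = 1 ∧ ![w.re, w.im, 0] ∈ C i}) ?_ ?_ ?_ ?_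
  · intro i j hij
    rw [Set.disjoint_left]
    intro w hw hw'
    exact Set.disjoint_left.1 (hdis i j hij) hw.2 hw'.2
  · intro i w hw
    refine ⟨hw.1, ?_⟩
    rw [← hinf]
    have : ![w.re, w.im, 0] ∈ realCone F := hun ▸ Set.mem_iUnion.2 ⟨i, hw.2⟩
    exact this.2
  · intro i w hw
    refine ⟨by rw [norm_neg]; exact hw.1, ?_⟩
    have := hcone i _ hw.2 (-1) (by norm_num)
    convert this using 1
    funext j
    fin_cases j <;> simp
  · intro i
    obtain ⟨u, v, hu, hv, hu1, hv1, h1, h2⟩ := key i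
    exact ⟨u, ⟨hu, hu1⟩, v, ⟨hv, hv1⟩, h1, h2⟩

end Pool.Agent.L7h83.HO
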