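import Pool.Agent.L7h83.HO.Stm

/-!
# Project HO: the assembly
-/

set_option autoImplicit false

open MvPolynomial Topology Filter

namespace Pool.Agent.L7h83.HO

open Pool.Agent.L7h17.OC

theorem s_KEY (hSM : SM) (hLOC : LOC) (hINF : INF) (hNE : NE) (hEXU : EXU) : KEY := by
  intro p F hH hN k C hne hdis hun hcone hcl i
  by_contra hcon
  push Not at hcon
  have ha : p.coeff 8 ≠ 0 := by
    have h8 := hH.1
    rw [← h8]
    refine Polynomial.leadingCoeff_ne_zero.2 ?_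
    rintro rfl
    simp at h8
  have haff : ∀ z : ℂ, eval ![z.re, z.im, 1] F = (p.eval z).re := by
    intro z
    rw [hH.2, Complex.re_add_im, Polynomial.eval_eq_sum_range, hH.1]
    simp
  have hinf : ∀ w : ℂ, eval ![w.re, w.im, 0] F = (p.coeff 8 * w ^ 8).re := by
    intro w
    rw [hH.2, Complex.re_add_im, Finset.sum_range_succ, Finset.sum_eq_zero]
    · simp
    · intro j hj
      have hj' : 8 - j ≠ 0 := by
        have := Finset.mem_range.1 hj
        omega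
      simp [hj']
  choose K hK hCK using hcl
  have hmemK : ∀ j, ∀ v : Fin 3 → ℝ, v ∈ C j → v ∈ K j := fun j v hv => by
    rw [hCK j] at hv
    exact hv.1
  have hKmem : ∀ j, ∀ v : Fin 3 → ℝ, v ∈ K j → v ≠ 0 → v ∈ C j := fun j v hv hv0 => by
    rw [hCK j]
    exact ⟨hv, hv0⟩
  have hne1 : ∀ z : ℂ, (![z.re, z.im, 1] : Fin 3 → ℝ) ≠ 0 := by
    intro z h
    have := congrFun h 2
    simp at this
  have hne0 : ∀ w : ℂ, ‖w‖ = 1 → (![w.re, w.im, 0] : Fin 3 → ℝ) ≠ 0 := by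
    intro w hw h
    have h0 := congrFun h 0
    have h1 := congrFun h 1
    simp at h0 h1
    have : w = 0 := Complex.ext h0 h1
    rw [this] at hw
    simp at hw
  have hzero : ∀ j, ∀ v : Fin 3 → ℝ, v ∈ C j → eval v F = 0 := by
    intro j v hv
    have : v ∈ realCone F := hun ▸ Set.mem_iUnion.2 ⟨j, hv⟩
    exact this.2
  obtain ⟨u, hu, hure, hudir⟩ : ∃ u : ℂ, ‖u‖ = 1 ∧ (p.coeff 8 * u ^ 8).re = 0 ∧
      ∀ w : ℂ, ‖w‖ = 1 → ![w.re, w.im, 0] ∈ K i → w = u ∨ w = -u := by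
    by_cases h : ∃ u : ℂ, ‖u‖ = 1 ∧ ![u.re, u.im, 0] ∈ C i
    · obtain ⟨u, hu, huC⟩ := h
      refine ⟨u, hu, ?_, fun w hw hwK => ?_⟩
      · rw [← hinf]
        exact hzero i _ huC
      · by_cases hwu : w = u
        · exact Or.inl hwu
        · exact Or.inr (hcon u w hu hw huC (hKmem i _ hwK (hne0 w hw)) hwu)
    · obtain ⟨u, hu, hur⟩ := hEXU _ ha
      exact ⟨u, hu, hur, fun w hw hwK => absurd ⟨w, hw, hKmem i _ hwK (hne0 w hw)⟩ h⟩
  obtain ⟨σ, hσ, hgrow⟩ := hINF p hH.1 (K i) (hK i) (fun v hv hv0 c hc =>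
    hmemK i _ (hcone i v (hKmem i v hv hv0) c hc)) u hu hure hudir
  -- an open set around any point of the piece `i` in which all zeros belong to the piece `i`
  have hopen : ∀ v : Fin 3 → ℝ, v ∈ C i → {w : Fin 3 → ℝ | ∀ j, j ≠ i → w ∉ K j} ∈ 𝓝 v := by
    intro v hv
    have hset : {w : Fin 3 → ℝ | ∀ j, j ≠ i → w ∉ K j} = ⋂ j ∈ {j : Fin k | j ≠ i}, (K j)ᶜ := by
      ext w
      simp
    rw [hset]
    refine (Filter.biInter_mem (Set.toFinite _)).2 fun j hj => ?_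
    refine (hK j).isOpen_compl.mem_nhds fun hvj => ?_
    have hv0 : v ≠ 0 := by
      rw [hCK i] at hv
      exact hv.2
    exact Set.disjoint_left.1 (hdis j i hj) (hKmem j v hvj hv0) hv
  have hback : ∀ v : Fin 3 → ℝ, v ≠ 0 → eval v F = 0 → (∀ j, j ≠ i → v ∉ K j) → v ∈ C i := by
    intro v hv0 hvF hvj
    have : v ∈ ⋃ i, C i := by
      rw [hun]
      exact ⟨hv0, hvF⟩
    obtain ⟨j, hj⟩ := Set.mem_iUnion.1 this
    by_cases hji : j = i
    · exact hji ▸ hj
    · exact absurd (hmemK j v hj) (hvj j hji)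
  obtain ⟨z₁, hz₁⟩ : ∃ z : ℂ, ![z.re, z.im, 1] ∈ C i := by
    obtain ⟨v, hv⟩ := hne i
    have hv0 : v ≠ 0 := by
      rw [hCK i] at hv
      exact hv.2
    by_cases h2 : v 2 = 0
    · -- a point at infinity
      set w₀ : ℂ := ⟨v 0, v 1⟩ with hw₀
      have hw₀0 : w₀ ≠ 0 := by
        intro h
        apply hv0
        have h0 : v 0 = 0 := by simpa [hw₀] using congrArg Complex.re h
        have h1 : v 1 = 0 := by simpa [hw₀] using congrArg Complex.im h
        funext j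
        fin_cases j
        · exact h0
        · exact h1
        · exact h2
      have hn : ‖w₀‖ ≠ 0 := norm_ne_zero_iff.2 hw₀0
      have hw : ![((‖w₀‖⁻¹ : ℝ) • w₀).re, ((‖w₀‖⁻¹ : ℝ) • w₀).im, 0] ∈ C i := by
        have hc := hcone i v hv (‖w₀‖⁻¹) (inv_ne_zero hn)
        convert hc using 1
        funext j
        fin_cases j
        · simp [hw₀]
        · simp [hw₀]
        · simp [h2]
      have hwn : ‖(‖w₀‖⁻¹ : ℝ) • w₀‖ = 1 := by
        rw [norm_smul, norm_inv, norm_norm, inv_mul_cancel₀ hn]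
      have hwre : (p.coeff 8 * ((‖w₀‖⁻¹ : ℝ) • w₀) ^ 8).re = 0 := by
        rw [← hinf]
        exact hzero i _ hw
      obtain ⟨z, s, hs, hz, hzU⟩ := hNE p hH.1 _ hwn hwre _ (hopen _ hw)
      refine ⟨z, ?_⟩
      have hscale : (![s * z.re, s * z.im, s] : Fin 3 → ℝ) = s • ![z.re, z.im, 1] := by
        funext j
        fin_cases j <;> simp
      refine hback _ (hne1 z) (by rw [haff, hz]) fun j hj hzK => hzU j hj ?_
      rw [hscale]
      exact hmemK j _ (hcone j _ (hKmem j _ hzK (hne1 z)) s hs.ne')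
    · refine ⟨⟨v 0 / v 2, v 1 / v 2⟩, ?_⟩
      have hc := hcone i v hv (v 2)⁻¹ (inv_ne_zero h2)
      convert hc using 1
      funext j
      fin_cases j
      · simp [div_eq_inv_mul]
      · simp [div_eq_inv_mul]
      · simp [h2]
  have hcont : Continuous fun z : ℂ => (![z.re, z.im, 1] : Fin 3 → ℝ) := by
    refine continuous_pi fun j => ?_
    fin_cases j
    · exact Complex.continuous_re
    · exact Complex.continuous_im
    · exact continuous_const
  have hAcl : IsClosed {z : ℂ | ![z.re, z.im, 1] ∈ K i} := (hK i).preimage hcont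
  have hfc : Continuous fun z : ℂ => σ * (p.eval z).im :=
    continuous_const.mul (Complex.continuous_im.comp p.continuous)
  obtain ⟨z₀, hz₀A, hmin⟩ : ∃ z₀ ∈ {z : ℂ | ![z.re, z.im, 1] ∈ K i},
      IsMinOn (fun z => σ * (p.eval z).im) {z : ℂ | ![z.re, z.im, 1] ∈ K i} z₀ := by
    refine ContinuousOn.exists_isMinOn' hfc.continuousOn hAcl (hmemK i _ hz₁) ?_
    obtain ⟨R, hR⟩ := hgrow (σ * (p.eval z₁).im)
    rw [Filter.eventually_inf_principal]
    have hR' : ∀ᶠ z in cocompact ℂ, R < ‖z‖ :=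
      (tendsto_norm_cocompact_atTop (E := ℂ)).eventually (eventually_gt_atTop R)
    filter_upwards [hR'] with z hz hzA
    exact (hR z hz hzA).le
  have hz₀C : ![z₀.re, z₀.im, 1] ∈ C i := hKmem i _ hz₀A (hne1 z₀)
  have hz₀re : (p.eval z₀).re = 0 := by
    rw [← haff]
    exact hzero i _ hz₀C
  have hU : (fun z : ℂ => (![z.re, z.im, 1] : Fin 3 → ℝ)) ⁻¹'
      {w : Fin 3 → ℝ | ∀ j, j ≠ i → w ∉ K j} ∈ 𝓝 z₀ :=
    hcont.continuousAt.preimage_mem_nhds (hopen _ hz₀C)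
  obtain ⟨⟨z, hzU, hz0, hgt⟩, ⟨z', hz'U, hz'0, hlt⟩⟩ :=
    hLOC p z₀ hz₀re (hSM p F hH hN z₀ hz₀re) _ hU
  have hzA : ![z.re, z.im, 1] ∈ K i :=
    hmemK i _ (hback _ (hne1 z) (by rw [haff, hz0]) hzU)
  have hz'A : ![z'.re, z'.im, 1] ∈ K i :=
    hmemK i _ (hback _ (hne1 z') (by rw [haff, hz'0]) hz'U)
  have e1 : σ * (p.eval z₀).im ≤ σ * (p.eval z).im := hmin hzA
  have e2 : σ * (p.eval z₀).im ≤ σ * (p.eval z').im := hmin hz'A
  rcases lt_or_gt_of_ne hσ with h | h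
  · nlinarith
  · nlinarith

end Pool.Agent.L7h83.HO
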