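import Pool.Agent.L7h83.HO.Fin
import Pool.Agent.L7h83.HO.Deg
import Pool.Agent.L7h5.HO.Cnt
import Pool.Agent.L7h9.HO.Ne
import Pool.Agent.L7h24.HO.Shn
import Pool.Agent.L7h37.HO.Inf
import Pool.Agent.L7h75.HO.Loc
import Pool.Agent.L7h99.HO.SM
import Pool.Agent.L7h77.OC.Trans

/-!
# Real plane octics with a harmonic affine equation have at most four ovals

Let `F` be a nonsingular real plane curve of degree 8 whose affine equation is harmonic in some real
affine coordinates: `F(x, y, 1) = Re p(x + i y)` with a complex polynomial `p`. (That is: `F` is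
annihilated by the sum of the squares of the derivatives in two different real directions; this is the
definite twin of the octics with separated variables, which are annihilated by the product of two such
derivatives.) Then the curve has at most four ovals, so it is far from an M-curve (22 ovals); the number
four is attained by `Re (x + i y)⁸ + t⁸`.

Proof. The polynomial `p` has degree 8 and `p'` has no zero on the affine curve, because `F` is
nonsingular. So `Im p` has no local extremum on the affine curve. A piece of the curve with at most one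
point on the line `t = 0` would have such an extremum: `Im p` or `-Im p` tends to infinity on it, since
`p(z)` is close to `c₈ z⁸` and `z` is close to the direction `u` with `Re (c₈ u⁸) = 0`. So every piece
contains two of the at most eight points of the curve on the line `t = 0`.

By helper83 (assembly, degree), helper5, helper9, helper24, helper37, helper75, helper99; change of
coordinates by helper77; definitions of helper17.
-/

set_option autoImplicit false

open MvPolynomial

namespace Pool.Agent.L7h83.HO.Main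

/-- The cone of the real part of the curve `F = 0`: the nonzero real zeros of `F`. -/
def realCone (F : MvPolynomial (Fin 3) ℝ) : Set (Fin 3 → ℝ) :=
  {v | v ≠ 0 ∧ eval v F = 0}

/-- The real part `{F = 0} ⊆ ℝℙ²` is the union of `k` pairwise disjoint nonempty closed sets
(given by the cones over them, which are closed in `ℝ³ ∖ {0}`).  For a nonsingular curve with `N` ovals
this holds for `k = N`. -/
def SplitsInto (k : ℕ) (F : MvPolynomial (Fin 3) ℝ) : Prop :=
  ∃ C : Fin k → Set (Fin 3 → ℝ),
    (∀ i, (C i).Nonempty) ∧ (∀ i j, i ≠ j → Disjoint (C i) (C j)) ∧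
    (⋃ i, C i) = realCone F ∧
    (∀ i, ∀ v ∈ C i, ∀ c : ℝ, c ≠ 0 → c • v ∈ C i) ∧
    (∀ i, ∃ K : Set (Fin 3 → ℝ), IsClosed K ∧ C i = K ∩ {v | v ≠ 0})

/-- The curve `F = 0` is nonsingular: `F` and its partial derivatives have no common zero in
`ℂℙ²`. -/
def Nonsing (F : MvPolynomial (Fin 3) ℝ) : Prop :=
  ∀ v : Fin 3 → ℂ, v ≠ 0 → ¬ (aeval v F = 0 ∧ ∀ i, aeval v (pderiv i F) = 0)

/-- In the real projective coordinates `x, y, t` given by the invertible matrix `M` the form `F` of
degree 8 is the real part of a complex form of degree 8 in `x + i y` and `t`. -/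
def HarmonicBy (M : Matrix (Fin 3) (Fin 3) ℝ) (F : MvPolynomial (Fin 3) ℝ) : Prop :=
  IsUnit M ∧ ∃ c : ℕ → ℂ, ∀ x y t : ℝ, eval (M.mulVec ![x, y, t]) F =
    (∑ j ∈ Finset.range 9, c j * ((x : ℂ) + y * Complex.I) ^ j * (t : ℂ) ^ (8 - j)).re

/-- (1) A nonsingular real octic which is harmonic in some real affine coordinates has at most four
ovals. (2) There is such an octic with four ovals. -/
theorem result :
    (∀ (F : MvPolynomial (Fin 3) ℝ) (M : Matrix (Fin 3) (Fin 3) ℝ), Nonsing F → HarmonicBy M F →
      ∀ k : ℕ, SplitsInto k F → k ≤ 4) ∧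
    ∃ F : MvPolynomial (Fin 3) ℝ, F.IsHomogeneous 8 ∧ Nonsing F ∧ HarmonicBy 1 F ∧
      SplitsInto 4 F := by
  refine ⟨fun F M hF hM k hk => ?_, ?_⟩
  · obtain ⟨hMu, c, hc⟩ := hM
    obtain ⟨-, h2, h3, h4⟩ := Pool.Agent.L7h77.OC.s_TRANS F M hMu
    have hval : ∀ x y t : ℝ, eval ![x, y, t] (Pool.Agent.L7h17.OC.change M F) =
        (∑ j ∈ Finset.range 9, c j * ((x : ℂ) + y * Complex.I) ^ j * (t : ℂ) ^ (8 - j)).re := by
      intro x y t
      rw [h2, hc]
    have hc8 : c 8 ≠ 0 := Pool.Agent.L7h83.HO.deg c _ hval (h3 hF)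
    have hco : ∀ j, j < 9 →
        (∑ i ∈ Finset.range 9, Polynomial.monomial i (c i)).coeff j = c j := by
      intro j hj
      rw [Polynomial.finset_sum_coeff, Finset.sum_eq_single j]
      · simp
      · intro i _ hi
        rw [Polynomial.coeff_monomial, if_neg hi]
      · intro h
        exact absurd (Finset.mem_range.2 hj) h
    refine Pool.Agent.L7h83.HO.fin
      (Pool.Agent.L7h83.HO.s_KEY Pool.Agent.L7h99.HO.s_SM Pool.Agent.L7h75.HO.s_LOC
        Pool.Agent.L7h37.HO.s_INF Pool.Agent.L7h9.HO.s_NE Pool.Agent.L7h5.HO.s_EXU)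
      Pool.Agent.L7h5.HO.s_CNT (∑ i ∈ Finset.range 9, Polynomial.monomial i (c i))
      (Pool.Agent.L7h17.OC.change M F) ⟨?_, fun x y t => ?_⟩ (h3 hF) k (h4 k hk)
    · refine le_antisymm ?_ (Polynomial.le_natDegree_of_ne_zero ?_)
      · refine Polynomial.natDegree_sum_le_of_forall_le _ _ fun i hi => ?_
        exact (Polynomial.natDegree_monomial_le _).trans
          (Nat.lt_succ_iff.1 (Finset.mem_range.1 hi))
      · rw [hco 8 (by norm_num)]
        exact hc8
    · rw [hval]
      congr 1
      refine Finset.sum_congr rfl fun j hj => ?_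
      rw [hco j (Finset.mem_range.1 hj)]
  · obtain ⟨F, h1, h2, h3, h4⟩ := Pool.Agent.L7h24.HO.s_SHN
    refine ⟨F, h1, h2,
      ⟨isUnit_one, (Polynomial.X ^ 8 + 1 : Polynomial ℂ).coeff, fun x y t => ?_⟩,
      Pool.Agent.L7h75.HO.s_SHP F h4⟩
    rw [Matrix.one_mulVec]
    exact h3.2 x y t

end Pool.Agent.L7h83.HO.Main
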