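import Pool.Agent.L7h17.OC.Defs

/-!
# Project HO (MP_b7f146_ag): real plane octics with a harmonic affine equation

A nonsingular real plane curve of degree 8 with the affine equation `Re p(x + i y) = 0`, `deg p = 8`,
has at most four ovals. This file has the statements.
-/

set_option autoImplicit false

open MvPolynomial Topology

namespace Pool.Agent.L7h83.HO

open Pool.Agent.L7h17.OC

/-- `F` is the form of degree 8 with the affine equation `Re p(x + i y) = 0`. -/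
def Harm (p : Polynomial ℂ) (F : MvPolynomial (Fin 3) ℝ) : Prop :=
  p.natDegree = 8 ∧ ∀ x y t : ℝ, eval ![x, y, t] F =
    (∑ j ∈ Finset.range 9, p.coeff j * ((x : ℂ) + y * Complex.I) ^ j * (t : ℂ) ^ (8 - j)).re

/-- Part SM. (If `p'(z) = 0` then the derivatives of `F` with respect to `x`, `y` and `t` vanish at
`(re z, im z, 1)`: they are `Re p'(z)`, `Re (i p'(z))` and `Re (8 p(z) - z p'(z))`.) -/
def SM : Prop := ∀ (p : Polynomial ℂ) (F : MvPolynomial (Fin 3) ℝ), Harm p F → Nonsing F →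
  ∀ z : ℂ, (p.eval z).re = 0 → p.derivative.eval z ≠ 0

/-- Part LOC. (`p` maps `𝓝 z₀` onto `𝓝 (p z₀)`: HasStrictDerivAt.map_nhds_eq; take
`p z₀ ± i s`.) -/
def LOC : Prop := ∀ (p : Polynomial ℂ) (z₀ : ℂ), (p.eval z₀).re = 0 →
  p.derivative.eval z₀ ≠ 0 → ∀ U ∈ 𝓝 z₀,
    (∃ z ∈ U, (p.eval z).re = 0 ∧ (p.eval z₀).im < (p.eval z).im) ∧
    ∃ z ∈ U, (p.eval z).re = 0 ∧ (p.eval z).im < (p.eval z₀).im

/-- Part INF. (`σ = Im (c₈ u⁸)`, which is not zero. Otherwise there are `z n` with `n < ‖z n‖`, in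
`K`, with `σ Im p(z n) ≤ B`; for a subsequence `z n / ‖z n‖` converges to some `w`; `(w, 0)` is in
`K`, so `w⁸ = u⁸`, and `σ Im p(z n) / ‖z n‖⁸` tends to `σ² > 0`, a contradiction.) -/
def INF : Prop := ∀ p : Polynomial ℂ, p.natDegree = 8 → ∀ K : Set (Fin 3 → ℝ), IsClosed K →
  (∀ v ∈ K, v ≠ 0 → ∀ c : ℝ, c ≠ 0 → c • v ∈ K) →
  ∀ u : ℂ, ‖u‖ = 1 → (p.coeff 8 * u ^ 8).re = 0 →
  (∀ w : ℂ, ‖w‖ = 1 → ![w.re, w.im, 0] ∈ K → w = u ∨ w = -u) →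
  ∃ σ : ℝ, σ ≠ 0 ∧ ∀ B : ℝ, ∃ R : ℝ, ∀ z : ℂ, R < ‖z‖ → ![z.re, z.im, 1] ∈ K →
    B < σ * (p.eval z).im

/-- Part NE. (`g(θ, s) = Re ∑ c_j (u exp(iθ))^j s^(8-j)` is continuous and
`g(θ, 0) = - Im (c₈ u⁸) sin 8θ` changes its sign at `θ = 0`; so for small `ε` and then
small `s > 0` there is a zero `θ` in `[-ε, ε]`; take `z = u exp(iθ) / s`.) -/
def NE : Prop := ∀ p : Polynomial ℂ, p.natDegree = 8 → ∀ u : ℂ, ‖u‖ = 1 →
  (p.coeff 8 * u ^ 8).re = 0 → ∀ U ∈ 𝓝 (![u.re, u.im, 0] : Fin 3 → ℝ),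
    ∃ (z : ℂ) (s : ℝ), 0 < s ∧ (p.eval z).re = 0 ∧ ![s * z.re, s * z.im, s] ∈ U

/-- Part CNT. (All points are roots of `a² X¹⁶ + |a|²`; each `D i` has four points.) -/
def CNT : Prop := ∀ a : ℂ, a ≠ 0 → ∀ (k : ℕ) (D : Fin k → Set ℂ),
  (∀ i j, i ≠ j → Disjoint (D i) (D j)) →
  (∀ i, ∀ w ∈ D i, ‖w‖ = 1 ∧ (a * w ^ 8).re = 0) → (∀ i, ∀ w ∈ D i, -w ∈ D i) →
  (∀ i, ∃ u ∈ D i, ∃ v ∈ D i, v ≠ u ∧ v ≠ -u) → k ≤ 4

/-- Part EXU. -/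
def EXU : Prop := ∀ a : ℂ, a ≠ 0 → ∃ u : ℂ, ‖u‖ = 1 ∧ (a * u ^ 8).re = 0

/-- Part SHP (the bound four is attained by `Re z⁸ + t⁸`): the four pieces are given by the closed
double sectors `Re (z² ζ^k) ≥ cos (π/8) |z|²` around the directions with `z⁸ = -|z|⁸`. -/
def SHP : Prop := ∀ F : MvPolynomial (Fin 3) ℝ, (∀ x y t : ℝ, eval ![x, y, t] F =
    (((x : ℂ) + y * Complex.I) ^ 8).re + t ^ 8) → SplitsInto 4 F

/-- Part SHN (the form `Re z⁸ + t⁸` exists, is nonsingular and harmonic). -/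
def SHN : Prop := ∃ F : MvPolynomial (Fin 3) ℝ, F.IsHomogeneous 8 ∧ Nonsing F ∧
  Harm (Polynomial.X ^ 8 + 1) F ∧ ∀ x y t : ℝ, eval ![x, y, t] F =
    (((x : ℂ) + y * Complex.I) ^ 8).re + t ^ 8

/-- The assembly: every piece has two different points on the line at infinity. -/
def KEY : Prop := ∀ (p : Polynomial ℂ) (F : MvPolynomial (Fin 3) ℝ), Harm p F → Nonsing F →
  ∀ (k : ℕ) (C : Fin k → Set (Fin 3 → ℝ)), (∀ i, (C i).Nonempty) →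
    (∀ i j, i ≠ j → Disjoint (C i) (C j)) → (⋃ i, C i) = realCone F →
    (∀ i, ∀ v ∈ C i, ∀ c : ℝ, c ≠ 0 → c • v ∈ C i) →
    (∀ i, ∃ K : Set (Fin 3 → ℝ), IsClosed K ∧ C i = K ∩ {v | v ≠ 0}) →
    ∀ i, ∃ u v : ℂ, ‖u‖ = 1 ∧ ‖v‖ = 1 ∧ ![u.re, u.im, 0] ∈ C i ∧ ![v.re, v.im, 0] ∈ C i ∧
      v ≠ u ∧ v ≠ -u

end Pool.Agent.L7h83.HO
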